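import Pool.Agent.H447.LAH

set_option autoImplicit false

/-!
# Linear arboricity of direct products, and of the graphs over a graph with long cycles

`H931R3.LA.la G` is the linear arboricity (the same expression as in the frozen statement S07085).
-/

namespace Pool.Agent.Results.MP_0a041d_co.DirectProducts

open SimpleGraph H931R3.LA Pool.Agent.W111.LAR

/-- `c` is a directed cycle of length `n` of the digraph `A`: distinct vertices `c 0, …, c (n - 1)`
with arcs `c i → c (i + 1)`, indices modulo `n`. -/
def IsDirCycle {W : Type} (A : W → W → Prop) (n : ℕ) (c : ZMod n → W) : Prop :=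
  0 < n ∧ Function.Injective c ∧ ∀ i, A (c i) (c (i + 1))

/-- All outdegrees and indegrees of the digraph `A` are at most one: `A` consists of disjoint
directed paths and directed cycles (for instance an oriented 2-factor of a graph). -/
def PathsAndCycles {W : Type} (A : W → W → Prop) : Prop :=
  (∀ u v w, A u v → A u w → v = w) ∧ ∀ u v w, A u w → A v w → u = v

/-- `f` maps every edge of `G` to an arc (in one of the two directions) of one of the digraphs `A i`,
and every vertex of `G` has at most `d` neighbours in each fibre of `f`. -/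
def Over {V W : Type} {m : ℕ} (G : SimpleGraph V) (f : V → W) (A : Fin m → W → W → Prop) (d : ℕ) :
    Prop :=
  (∀ u v, G.Adj u v → ∃ i, A i (f u) (f v) ∨ A i (f v) (f u)) ∧
    ∀ u w, {v | G.Adj u v ∧ f v = w}.ncard ≤ d

/-- The direct product (tensor product) of two graphs. -/
def direct {W U : Type} (K : SimpleGraph W) (H : SimpleGraph U) : SimpleGraph (W × U) where
  Adj p q := K.Adj p.1 q.1 ∧ H.Adj p.2 q.2
  symm.symm := fun _ _ h => ⟨h.1.symm, h.2.symm⟩
  loopless.irrefl := fun _ h => h.1.ne rfl

/-- The permutations `σ i` are Hamilton cycles of `K` (each is one cycle through all vertices) whose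
edges are all the edges of `K`. -/
def HamiltonCycles {W : Type} {m : ℕ} (K : SimpleGraph W) (σ : Fin m → Equiv.Perm W) : Prop :=
  (∀ i u v, ∃ k : ℕ, (σ i ^ k) u = v) ∧ ∀ u v, K.Adj u v ↔ ∃ i, σ i u = v ∨ σ i v = u

/-- **Linear arboricity of the graphs over a graph with long cycles.**

(a) Let `G` lie over digraphs `A 0, …, A (m - 1)` which consist of disjoint directed paths and cycles
(for instance the oriented 2-factors of a 2-factorization of a `2 m`-regular graph), with at most
`d` neighbours of every vertex in each fibre.  Let the directed cycles of `A i` through `w` have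
length at least `ℓ i w`, where `∑ i, 2 d / ℓ i w ≤ 1` for all `w`; for instance let all directed
cycles of each `A i` have length at least `2 m d` (arcs of different `A i` may form short directed
cycles).  Then `la G ≤ m d + 1`.  If `G` is `2 m d`-regular then
`la G = m d + 1 = ⌈(2 m d + 1) / 2⌉`.

(b) In particular, let `K` be the union of `m` Hamilton cycles on at least `2 m d` vertices and `H`
any graph of maximum degree at most `d`.  Then the direct product `K × H` has linear arboricity at
most `m d + 1`.  If `K` is `2 m`-regular (the Hamilton cycles are edge-disjoint) and `H` is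
`d`-regular, the linear arboricity is `m d + 1 = ⌈(2 m d + 1) / 2⌉`. -/
theorem result :
    (∀ (V W : Type) [Finite V] (m d : ℕ) (G : SimpleGraph V) (f : V → W)
      (A : Fin m → W → W → Prop), (∀ i, PathsAndCycles (A i)) → Over G f A d →
      ∀ ℓ : Fin m → W → ℕ, (∀ i w, 0 < ℓ i w) →
      (∀ i n c, IsDirCycle (A i) n c → ∀ j, ℓ i (c j) ≤ n) →
      (∀ w, ∑ i, (2 * d : ℝ) / ℓ i w ≤ 1) →
      la G ≤ m * d + 1 ∧
      (Nonempty V → 0 < m * d → (∀ v, (G.neighborSet v).ncard = 2 * (m * d)) →
        la G = m * d + 1)) ∧
    (∀ (W U : Type) [Finite W] [Finite U] (m d : ℕ) (K : SimpleGraph W) (H : SimpleGraph U)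
      (σ : Fin m → Equiv.Perm W), HamiltonCycles K σ → 2 * (m * d) ≤ Nat.card W →
      (∀ x, (H.neighborSet x).ncard ≤ d) →
      la (direct K H) ≤ m * d + 1 ∧
      (Nonempty W → Nonempty U → 0 < m * d → (∀ w, (K.neighborSet w).ncard = 2 * m) →
        (∀ x, (H.neighborSet x).ncard = d) → la (direct K H) = m * d + 1)) := by
  refine ⟨?_, ?_⟩
  · intro V W _ m d G f A hA hG ℓ hℓ hcyc hsum
    have h1 := Pool.Agent.H447.LAH.cov_load m d G f A (fun i => (hA i).1) (fun i => (hA i).2) hG.1
      hG.2 ℓ hℓ (fun i n c hn hinj harc => hcyc i n c ⟨hn, hinj, harc⟩ 0) hsum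
    refine ⟨la_le h1, fun _ hpos hreg => ?_⟩
    have h3 : (2 * (m * d) + 2) / 2 = m * d + 1 := by omega
    rw [← h3] at h1 ⊢
    exact la_eq_of_cov (by omega) hreg h1
  · intro W U _ _ m d K H σ hσ hW hd
    have h1 : Cov (direct K H) (m * d + 1) :=
      Pool.Agent.H447.LAH.cov_direct m d K H σ hσ.1 (fun u v h => (hσ.2 u v).1 h) hd hW
    refine ⟨la_le h1, fun _ _ hpos hK hH => ?_⟩
    have h3 : (2 * (m * d) + 2) / 2 = m * d + 1 := by omega
    rw [← h3] at h1 ⊢
    refine la_eq_of_cov (by omega) (fun p => ?_) h1
    have h5 := Pool.Agent.H447.LAH.direct_deg K H p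
    rw [hK, hH] at h5
    exact h5.trans (by ring)

end Pool.Agent.Results.MP_0a041d_co.DirectProducts
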