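import Pool.Agent.Helper37LA.E
import Pool.Agent.Helper37LA.C2

set_option autoImplicit false

/-!
# The linear arboricity conjecture for graphs with homogeneous classes

`H931R3.LA.la G` is the linear arboricity (the same expression as in the frozen statement S07085).
-/

namespace Pool.Agent.Results.MP_0a041d_co.HomogeneousClasses

open SimpleGraph H931R3.LA Pool.Agent.Helper37LA

/-- **The linear arboricity conjecture for graphs with homogeneous classes.**  Let `G` be a finite
graph whose vertices are partitioned into classes, the fibres of a map `f`, such that adjacency of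
two distinct vertices depends only on their classes: every class is independent or a clique, and two
different classes are completely joined or not joined at all.

(a) If `G` is `r`-regular, `r ≥ 1`, and the product of the sizes of any two different classes that
are joined is at least `r`, then the linear arboricity of `G` is `⌈(r + 1) / 2⌉`.

(b) For arbitrary degrees: if all degrees are at most `D` and the product of the sizes of any two
different classes that are joined is at least `D + 1` (at least `D` if `D` is odd), then the linear
arboricity of `G` is at most `⌈(D + 1) / 2⌉`.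

(c) If all degrees are at most `D`, then for the same conclusion (with equality if `G` is
`D`-regular) it is enough that the sizes are large along a closed trail through all classes: there
are multiplicities `S i j = S j i` of pairs of different joined classes which make the set of the
classes a connected multigraph with all degrees even, such that the product of the sizes of the
classes `i` and `j` is at least `S i j * ⌈(D + 1) / 2⌉`. -/
theorem result :
    (∀ (V C : Type) [Finite V] (G : SimpleGraph V) (f : V → C),
      (∀ x y x' y', x ≠ y → x' ≠ y' → f x = f x' → f y = f y' → G.Adj x y → G.Adj x' y') →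
      (∀ r : ℕ, 0 < r → Nonempty V → (∀ v, (G.neighborSet v).ncard = r) →
        (∀ x y, G.Adj x y → f x ≠ f y → r ≤ {w | f w = f x}.ncard * {w | f w = f y}.ncard) →
        la G = (r + 2) / 2) ∧
      ∀ D : ℕ, (∀ v, (G.neighborSet v).ncard ≤ D) →
        (∀ x y, G.Adj x y → f x ≠ f y →
          2 * ((D + 2) / 2) ≤ {w | f w = f x}.ncard * {w | f w = f y}.ncard + 1) →
        la G ≤ (D + 2) / 2) ∧
    ∀ (V : Type) [Finite V] [Nonempty V] (G : SimpleGraph V) (p : ℕ) (f : V → Fin p),
      Function.Surjective f →
      (∀ x y x' y', x ≠ y → x' ≠ y' → f x = f x' → f y = f y' → G.Adj x y → G.Adj x' y') →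
      ∀ D : ℕ, (∀ v, (G.neighborSet v).ncard ≤ D) →
      ∀ S : Fin p → Fin p → ℕ, (∀ i j, S i j = S j i) → (∀ i, S i i = 0) →
        (∀ i, Even (∑ j, S i j)) →
        (∀ i j, 0 < S i j → (∃ x y, G.Adj x y ∧ f x = i ∧ f y = j) ∧
          S i j * ((D + 2) / 2) ≤ {w | f w = i}.ncard * {w | f w = j}.ncard) →
        (∀ i j, Relation.ReflTransGen (fun a b => 0 < S a b) i j) →
        la G ≤ (D + 2) / 2 ∧
          (0 < D → (∀ v, (G.neighborSet v).ncard = D) → la G = (D + 2) / 2) := by
  refine ⟨?_, ?_⟩
  · intro V C _ G f hh
    refine ⟨?_, ?_⟩
    · intro r hr hne hreg hprod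
      have hcov : Cov G ((r + 2) / 2) := by
        rcases Nat.even_or_odd r with ⟨k, hk⟩ | ⟨k, hk⟩
        · rw [show (r + 2) / 2 = k + 1 by omega]
          exact cov_general_even G f hh k (by omega) (fun v => by rw [hreg]; omega)
            (fun x y h1 h2 => by have := hprod x y h1 h2; omega)
        · refine cov_general G f hh _ (by omega) (fun v => by rw [hreg]; omega)
            (fun x y h1 h2 => by have := hprod x y h1 h2; omega)
      exact le_antisymm (la_le hcov) (lower hr (cov_la G) hreg)
    · intro D hD hprod
      exact la_le (cov_general G f hh _ (by omega) (fun v => by have := hD v; omega) hprod)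
  · intro V _ _ G p f hf hh D hD S hSs hS0 hSe hSw hSc
    have : Fintype V := Fintype.ofFinite V
    have hcov : Cov G ((D + 2) / 2) := cov_coreS G f hf hh _ (by omega)
      (fun v => by have := hD v; omega) S hSs hS0 hSe
      (fun i j h => ⟨(hSw i j h).1, by rw [mul_comm]; exact (hSw i j h).2⟩) hSc
    exact ⟨la_le hcov, fun h1 h2 => le_antisymm (la_le hcov) (lower h1 (cov_la G) h2)⟩

end Pool.Agent.Results.MP_0a041d_co.HomogeneousClasses
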