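import Pool.Agent.H355.LAQ.Mu
import Pool.Agent.W111.LAR.Top

set_option autoImplicit false

/-!
# Linear arboricity of graphs with a multigraph quotient

`H931R3.LA.la G` is the linear arboricity (the same expression as in the frozen statement S07085).
A graph `G` with a map `p : V → W` is compared with a finite family `H i` of graphs of maximum degree
at most two on `W` (the same graph may occur several times): the union of the family, every edge
counted with its multiplicity, plays the role of a quotient of `G`.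
-/

namespace Pool.Agent.Results.MP_0a041d_co.MultigraphQuotients

open SimpleGraph Finset H931R3.LA Pool.Agent.W111.LAR Pool.Agent.H355.LAQ

/-- `2 / (number of vertices of the component of w)` if all vertices of the component of `w` have
degree two in `H` (for finite graphs of maximum degree at most two: if the component is a cycle),
and `0` otherwise. -/
noncomputable def load {W : Type} (H : SimpleGraph W) (w : W) : ℝ :=
  open Classical in
  if ∀ x, H.Reachable w x → (H.neighborSet x).ncard = 2 then
    (2 : ℝ) / {x | H.Reachable w x}.ncard else 0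

/-- `G` lies over the family `H` by `p`: the graphs `H i` have maximum degree at most two, and every
vertex `u` of `G` has at most as many neighbours in the class `p ⁻¹ j` as there are indices `i` such
that `p u` and `j` are adjacent in `H i`. -/
def Over {V W κ : Type} (G : SimpleGraph V) (H : κ → SimpleGraph W) (p : V → W) : Prop :=
  (∀ i w, ((H i).neighborSet w).ncard ≤ 2) ∧
    ∀ u j, {v | G.Adj u v ∧ p v = j}.ncard ≤ {i | (H i).Adj (p u) j}.ncard

/-- `G` lies over the family `H` and the matching `M`: the graphs `H i` have maximum degree at most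
two, `M` has maximum degree at most one and no edge in common with the graphs `H i`, and every vertex
`u` of `G` has at most one neighbour in the class `p ⁻¹ j` if `p u` and `j` are adjacent in `M`, and
otherwise at most as many as there are indices `i` such that `p u` and `j` are adjacent in `H i`. -/
def OverM {V W κ : Type} (G : SimpleGraph V) (H : κ → SimpleGraph W) (M : SimpleGraph W)
    (p : V → W) : Prop :=
  (∀ i w, ((H i).neighborSet w).ncard ≤ 2) ∧ (∀ w, (M.neighborSet w).ncard ≤ 1) ∧
    (∀ i w x, M.Adj w x → ¬ (H i).Adj w x) ∧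
    (∀ u j, M.Adj (p u) j → {v | G.Adj u v ∧ p v = j}.ncard ≤ 1) ∧
    (∀ u j, ¬ M.Adj (p u) j →
      {v | G.Adj u v ∧ p v = j}.ncard ≤ {i | (H i).Adj (p u) j}.ncard)

theorem even_of_cov {V : Type} [Finite V] {G : SimpleGraph V} {k : ℕ} (h : Cov G (k + 1)) :
    la G ≤ k + 1 ∧ (Nonempty V → 0 < k → (∀ v, (G.neighborSet v).ncard = 2 * k) →
      la G = k + 1) := by
  refine ⟨la_le h, fun _ hk hreg => ?_⟩
  have h3 : (2 * k + 2) / 2 = k + 1 := by omega
  rw [← h3] at h ⊢
  exact la_eq_of_cov (by omega) hreg h

theorem odd_of_cov {V : Type} [Finite V] {G : SimpleGraph V} {k : ℕ} (h : Cov G (k + 1)) :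
    la G ≤ k + 1 ∧ (Nonempty V → (∀ v, (G.neighborSet v).ncard = 2 * k + 1) →
      la G = k + 1) := by
  refine ⟨la_le h, fun _ hreg => ?_⟩
  have h3 : (2 * k + 1 + 2) / 2 = k + 1 := by omega
  rw [← h3] at h ⊢
  exact la_eq_of_cov (by omega) hreg h

/-- **Linear arboricity and multigraph quotients.**

(1) Let `G` lie over `k` graphs of maximum degree at most two such that, for every `w`, the sum of
`2 / |C|` over the components `C` of `w` in the `k` graphs which are cycles is at most one.  Then
`la G ≤ k + 1`, with equality if `G` is `2 k`-regular.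
(2) If all cycles of the `k` graphs have length at least `2 m`, then `la G ≤ k + ⌈k / m⌉`.
(3) Let `G` lie over `k` graphs of maximum degree at most two without cycles of length less than
`12 k - 8` and a matching.  Then `la G ≤ k + 1`, with equality if `G` is `(2 k + 1)`-regular.
(4) Let `μ` be a function with `μ s⁻¹ = μ s` on a finite group `Γ`, zero at the identity and at the
involutions, such that the sum of `μ s / ord s` is at most one.  If `p : V → Γ` is such that every
vertex `u` of `G` has at most `μ s` neighbours in the class of `p u * s` for all `s`, then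
`la G ≤ r / 2 + 1`, `r` the sum of the values of `μ`, with equality if `G` is `r`-regular.
(5) The odd case of (4): an involution `τ`, at most one neighbour in the class of `p u * τ`, and
`12 k - 8 ≤ ord s` whenever `μ s ≠ 0`, the sum of the values of `μ` being `2 k`. -/
theorem result :
    (∀ (V W κ : Type) [Finite V] [Finite W] [Fintype κ] (G : SimpleGraph V)
      (H : κ → SimpleGraph W) (p : V → W), Over G H p → (∀ w, ∑ i, load (H i) w ≤ 1) →
      la G ≤ Fintype.card κ + 1 ∧ (Nonempty V → 0 < Fintype.card κ →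
        (∀ v, (G.neighborSet v).ncard = 2 * Fintype.card κ) → la G = Fintype.card κ + 1)) ∧
    (∀ (V W κ : Type) [Finite V] [Finite W] [Fintype κ] (G : SimpleGraph V)
      (H : κ → SimpleGraph W) (p : V → W) (m : ℕ), Over G H p → 1 ≤ m →
      (∀ i (w : W) (c : (H i).Walk w w), c.IsCycle → 2 * m ≤ c.length) →
      la G ≤ Fintype.card κ + (Fintype.card κ + m - 1) / m) ∧
    (∀ (V W κ : Type) [Finite V] [Finite W] [Fintype κ] (G : SimpleGraph V)
      (H : κ → SimpleGraph W) (M : SimpleGraph W) (p : V → W), OverM G H M p →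
      (∀ i (w : W) (c : (H i).Walk w w), c.IsCycle → 12 * Fintype.card κ ≤ c.length + 8) →
      la G ≤ Fintype.card κ + 1 ∧ (Nonempty V →
        (∀ v, (G.neighborSet v).ncard = 2 * Fintype.card κ + 1) → la G = Fintype.card κ + 1)) ∧
    (∀ (V Γ : Type) [Finite V] [Group Γ] [Fintype Γ] (G : SimpleGraph V) (p : V → Γ) (μ : Γ → ℕ),
      (∀ s, μ s⁻¹ = μ s) → (∀ s, s * s = 1 → μ s = 0) → ∑ s, (μ s : ℝ) / orderOf s ≤ 1 →
      (∀ u s, {v | G.Adj u v ∧ p v = p u * s}.ncard ≤ μ s) →
      la G ≤ (∑ s, μ s) / 2 + 1 ∧ (Nonempty V → 0 < ∑ s, μ s →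
        (∀ v, (G.neighborSet v).ncard = ∑ s, μ s) → la G = (∑ s, μ s + 2) / 2)) ∧
    (∀ (V Γ : Type) [Finite V] [Group Γ] [Fintype Γ] (G : SimpleGraph V) (p : V → Γ) (μ : Γ → ℕ)
      (τ : Γ) (k : ℕ), (∀ s, μ s⁻¹ = μ s) → (∀ s, s * s = 1 → μ s = 0) → τ * τ = 1 → τ ≠ 1 →
      ∑ s, μ s = 2 * k → (∀ s, μ s ≠ 0 → 12 * k ≤ orderOf s + 8) →
      (∀ u s, s ≠ τ → {v | G.Adj u v ∧ p v = p u * s}.ncard ≤ μ s) →
      (∀ u, {v | G.Adj u v ∧ p v = p u * τ}.ncard ≤ 1) →
      la G ≤ k + 1 ∧ (Nonempty V → (∀ v, (G.neighborSet v).ncard = 2 * k + 1) →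
        la G = k + 1)) := by
  refine ⟨?_, ?_, ?_, ?_, ?_⟩
  · intro V W κ _ _ _ G H p hO hl
    classical
    refine even_of_cov (cov_of_mcov (mcov_of_load H hO.1 (fun v => ?_)) G p hO.2)
    refine le_trans (le_of_eq (sum_congr rfl fun i _ => ?_)) (hl v)
    unfold load Cyc csize
    split_ifs <;> rfl
  · intro V W κ _ _ _ G H p m hO hm hcyc
    exact la_le (cov_of_mcov (mcov_cycles H m hm hO.1 hcyc) G p hO.2)
  · intro V W κ _ _ _ G H M p ⟨hdeg, hM, hdisj, h1, h2⟩ hcyc
    refine odd_of_cov (cov_of_mcov (mcov_matching H M hdeg hM hdisj (12 * Fintype.card κ - 8)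
      (by omega) (fun i v h => ?_)) G p ?_)
    · obtain ⟨w, c, hc, hlen⟩ := exists_cycle h
      have h3 := hcyc i w c hc
      omega
    · intro u j
      by_cases h : M.Adj (p u) j
      · refine (h1 u j h).trans ?_
        have h3 : 0 < {_x : Unit | M.Adj (p u) j}.ncard :=
          (Set.ncard_pos (Set.toFinite _)).2 ⟨(), h⟩
        omega
      · exact (h2 u j h).trans (Nat.le_add_right _ _)
  · intro V Γ _ _ _ G p μ hinv hno hsum hp
    obtain ⟨k, hk, hcov⟩ := mcov_mu μ hinv hno hsum
    have h1 := even_of_cov (cov_of_mcov hcov G p (by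
      intro u j
      have h2 := hp u ((p u)⁻¹ * j)
      rwa [mul_inv_cancel_left] at h2))
    rw [hk]
    have h2 : 2 * k / 2 = k := by omega
    have h3 : (2 * k + 2) / 2 = k + 1 := by omega
    rw [h2, h3]
    exact ⟨h1.1, fun hV hpos hreg => h1.2 hV (by omega) hreg⟩
  · intro V Γ _ _ _ G p μ τ k hinv hno hτ hτ1 hk hord hp hpτ
    refine odd_of_cov (cov_of_mcov (mcov_mu_odd μ τ k hinv hno hτ hk hord) G p ?_)
    intro u j
    by_cases h : (p u)⁻¹ * j = τ
    · have hj : j = p u * τ := by rw [← h, mul_inv_cancel_left]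
      have hne : p u ≠ j := by
        rw [hj]
        intro h2
        exact hτ1 (mul_eq_left.1 h2.symm)
      have h3 : 0 < {_x : Unit | p u ≠ j ∧ j = p u * τ}.ncard :=
        (Set.ncard_pos (Set.toFinite _)).2 ⟨(), hne, hj⟩
      have h4 := hpτ u
      rw [← hj] at h4
      omega
    · have h2 := hp u _ h
      rw [mul_inv_cancel_left] at h2
      exact h2.trans (Nat.le_add_right _ _)

end Pool.Agent.Results.MP_0a041d_co.MultigraphQuotients
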